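import Pool.Agent.H25.TRI.Targets

/-! Row MOA of part C of the board reg: pointwise bound of the heat extension under the Morrey
bound. -/

namespace Pool.Agent.H34.TRI

open MeasureTheory Metric Set Filter Topology Pool.Agent.H87.SN Pool.Agent.H25.TRI
open scoped ContDiff RealInnerProductSpace ENNReal

theorem pf_MOA (hDYA : T_DYA) : T_MOA := by
  intro n hn
  obtain ⟨c, hc, hD⟩ := hDYA n
  obtain ⟨v, hv⟩ : ∃ v : ℝ≥0∞, v = volume (ball (0 : E n) 1) := ⟨_, rfl⟩
  have hv0 : v ≠ 0 := by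
    rw [hv]
    exact (measure_ball_pos volume _ one_pos).ne'
  have hvt : v ≠ ⊤ := by
    rw [hv]
    exact measure_ball_lt_top.ne
  have hK : (∑' j, c j) / v ≠ ⊤ := ENNReal.div_ne_top hc hv0
  refine ⟨((∑' j, c j) / v).toReal, ENNReal.toReal_nonneg, ?_⟩
  intro f M hf hM hMor s hs x
  have hss : 0 < Real.sqrt s := Real.sqrt_pos.2 hs
  have hq : 0 ≤ M / Real.sqrt s := div_nonneg hM hss.le
  have hterm : ∀ j : ℕ, (∫⁻ z in ball x (2 ^ j * Real.sqrt s), ‖f z‖ₑ) /
      volume (ball x (2 ^ j * Real.sqrt s)) ≤ ENNReal.ofReal (M / Real.sqrt s) / v := by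
    intro j
    obtain ⟨r, hr⟩ : ∃ r : ℝ, r = 2 ^ j * Real.sqrt s := ⟨_, rfl⟩
    have h1 : (1 : ℝ) ≤ 2 ^ j := one_le_pow₀ (by norm_num)
    have hrs : Real.sqrt s ≤ r := by
      rw [hr]
      nlinarith
    have hr0 : 0 < r := lt_of_lt_of_le hss hrs
    rw [← hr]
    have h2 := hMor x r hr0
    have h3 : volume (ball x r) = ENNReal.ofReal (r ^ n) * v := by
      rw [hv, Measure.addHaar_ball_of_pos volume x hr0, finrank_euclideanSpace, Fintype.card_fin]
    have h4 : M * r ^ (n - 1) ≤ M / Real.sqrt s * r ^ n := by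
      have h5 : r ^ n = r ^ (n - 1) * r := by
        rw [← pow_succ]
        congr 1
        omega
      rw [h5, div_mul_eq_mul_div, le_div_iff₀ hss]
      have h6 : 0 ≤ M * r ^ (n - 1) := by positivity
      nlinarith
    rw [h3]
    have h7 : ENNReal.ofReal (r ^ n) ≠ 0 := by
      rw [Ne, ENNReal.ofReal_eq_zero, not_le]
      positivity
    have h8 : ENNReal.ofReal (r ^ n) ≠ ⊤ := ENNReal.ofReal_ne_top
    refine ENNReal.div_le_of_le_mul ?_
    calc (∫⁻ z in ball x r, ‖f z‖ₑ) ≤ ENNReal.ofReal (M * r ^ (n - 1)) := h2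
      _ ≤ ENNReal.ofReal (M / Real.sqrt s * r ^ n) := ENNReal.ofReal_le_ofReal h4
      _ = ENNReal.ofReal (M / Real.sqrt s) * ENNReal.ofReal (r ^ n) := ENNReal.ofReal_mul hq
      _ = ENNReal.ofReal (M / Real.sqrt s) / v * (ENNReal.ofReal (r ^ n) * v) := by
        rw [mul_comm (ENNReal.ofReal (r ^ n)) v, ← mul_assoc, ENNReal.div_mul_cancel hv0 hvt]
  have h1 : ‖U f s x‖ₑ ≤ (∑' j, c j) / v * ENNReal.ofReal (M / Real.sqrt s) := by
    calc ‖U f s x‖ₑ ≤ ∑' j : ℕ, c j * ((∫⁻ z in ball x (2 ^ j * Real.sqrt s), ‖f z‖ₑ) /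
          volume (ball x (2 ^ j * Real.sqrt s))) := hD f hf s hs x
      _ ≤ ∑' j : ℕ, c j * (ENNReal.ofReal (M / Real.sqrt s) / v) :=
        ENNReal.tsum_le_tsum fun j => mul_le_mul_right (hterm j) (c j)
      _ = (∑' j, c j) / v * ENNReal.ofReal (M / Real.sqrt s) := by
        rw [ENNReal.tsum_mul_right]
        simp only [div_eq_mul_inv]
        ring
  have h2 : ‖U f s x‖ₑ = ENNReal.ofReal |U f s x| := Real.enorm_eq_ofReal_abs _
  have h3 : (∑' j, c j) / v = ENNReal.ofReal ((∑' j, c j) / v).toReal :=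
    (ENNReal.ofReal_toReal hK).symm
  rw [h2, h3, ← ENNReal.ofReal_mul ENNReal.toReal_nonneg] at h1
  have h4 := (ENNReal.ofReal_le_ofReal_iff (mul_nonneg ENNReal.toReal_nonneg hq)).1 h1
  rw [mul_div_assoc]
  exact h4

end Pool.Agent.H34.TRI
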